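import Pool.Agent.W_be22fd_h54.PropP
import Pool.Agent.W_be22fd_h16.Recur

/-!
STORM P (MP_be22fd_co): a node satisfies the hypotheses `PairOK`, `ChildOK` of the recursion.
-/

namespace Pool.Agent.W_be22fd_h54

open Pool.Agent.W_be22fd_h27 Pool.Agent.W_be22fd_h16 Pool.Agent.W_be22fd_h78 Polynomial

lemma mem_sysW {B : Block} {p : Wire B.W B.ns} : p ∈ sysW B ↔ B.Sys p := by
  cases p <;> simp [sysW, Block.Sys]

lemma sysPoly_eq {B : Block} {d : ℕ} (R : BReal B d) : sysPoly R = R.sys := by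
  ext P
  constructor
  · rintro ⟨p, hp, rfl⟩
    exact ⟨p, mem_sysW.2 hp, rfl⟩
  · rintro ⟨p, hp, rfl⟩
    exact ⟨p, mem_sysW.1 hp, rfl⟩

namespace Node

variable {B B' : Block} {K d : ℕ} (s : Node B B' K)

lemma tau_lo (R : BReal B' d) (k : Fin K) : R.tau (s.lo k) = R.tn k := by
  have h : (k : ℕ) < B'.ns := by
    rw [s.hns]
    omega
  rw [R.tn_eq h]
  rfl

lemma tau_hi (R : BReal B' d) (k : Fin K) : R.tau (s.hi k) = R.tn (k + 1) := by
  have h : (k : ℕ) + 1 < B'.ns := by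
    rw [s.hns]
    omega
  rw [R.tn_eq h]
  rfl

include s

/-- the hypothesis of the recursion at the first level -/
theorem pairOK (d : ℕ) : PairOK B' d := by
  intro R k hk hk2 x hx hx'
  rw [s.hns] at hk2
  have h01 : ((⟨k - 1, by omega⟩ : Fin K) : ℕ) + 1 = ((⟨k, by omega⟩ : Fin K) : ℕ) := by
    simp only
    omega
  obtain ⟨P, hP, Q, hQ, hne, z, hz, h1, h2, hD⟩ :=
    s.prop_P_pair R h01 (x := x) (by
      rw [s.tau_hi]
      simp only
      rw [show k - 1 + 1 = k by omega]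
      exact hx.le) (by
      rw [s.tau_hi]
      exact hx'.le)
  rw [sysPoly_eq] at hP hQ hD
  rw [s.tau_lo] at h1
  exact ⟨P, hP, Q, hQ, z, hne, hz, h1.le, h2, hD⟩

/-- the hypothesis of the recursion at the higher levels -/
theorem childOK (d : ℕ) (hB : 2 ≤ B.ns) : ChildOK B B' d := by
  intro R k hk hk2 x hx hx'
  rw [s.hns] at hk2
  have h01 : ((⟨k - 1, by omega⟩ : Fin K) : ℕ) + 1 = ((⟨k, by omega⟩ : Fin K) : ℕ) := by
    simp only
    omega
  obtain ⟨j, -, hj, hsub, hD⟩ := s.prop_P R h01 (x := x) (by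
      rw [s.tau_hi]
      simp only
      rw [show k - 1 + 1 = k by omega]
      exact hx.le) (by
      rw [s.tau_hi]
      exact hx'.le)
  rw [sysPoly_eq, sysPoly_eq] at hsub hD
  refine ⟨s.restrict R j, hsub, ?_, ?_, hD⟩
  · have h1 := (hj ⟨1, by omega⟩).1
    rw [s.tau_lo] at h1
    rw [(s.restrict R j).tn_eq (by omega : 1 < B.ns)]
    exact h1.le
  · rw [(s.restrict R j).tn_eq (by omega : B.ns - 2 < B.ns)]
    exact (hj _).2.le

end Node

end Pool.Agent.W_be22fd_h54
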