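import Pool.Agent.W_be22fd_h54.Restrict

/-!
STORM P (MP_be22fd_co): the facts about the order of the system wires at the outer key states,
which the grid step has to deliver, and the system of polynomials of a realised block.
-/

namespace Pool.Agent.W_be22fd_h27

/-- the wires of the system of a block: `L`, `C` and the inner wires with `T` -/
def Block.Sys (B : Block) : Wire B.W B.ns → Prop
  | .inn w => B.T w
  | .L => True
  | .C => True
  | .S _ => False
  | .R _ => False

lemma Block.Sys.core {B : Block} {p : Wire B.W B.ns} (h : B.Sys p) : p.IsCore := by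
  cases p <;> first | exact h.elim | trivial

end Pool.Agent.W_be22fd_h27

namespace Pool.Agent.W_be22fd_h54

open Pool.Agent.W_be22fd_h27 Pool.Agent.W_be22fd_h16 Polynomial

/-- the system of polynomials of a realised block -/
def sysPoly {B : Block} {d : ℕ} (R : BReal B d) : Set ℝ[X] := {P | ∃ p, B.Sys p ∧ R.F p = P}

/-- `B'` is obtained from `B` by the grid step: slots and the order of the system wires at the
outer key states.  `e k C`, `e k L` are the movers of slot `k`. -/
structure Node (B B' : Block) (K : ℕ) extends Slots B B' K where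
  /-- the system of every copy is contained in the system of `B'` -/
  sys_e : ∀ k p, B.Sys p → B'.Sys (e k p)
  /-- after slot `k` the system has top wires `c_k > c_(k-1) > ... > c_0 >` all others -/
  top : ∀ k j, j ≤ k → ∀ q, B'.Sys q → (∀ i, j ≤ i → i ≤ k → q ≠ e i .C) →
    B'.h (B'.key (toSlots.hi k) 0) q < B'.h (B'.key (toSlots.hi k) 0) (e j .C)
  /-- after slot `k` the system has bottom wires `l_k < l_(k-1) < ... < l_0 <` all others -/
  bot : ∀ k j, j ≤ k → ∀ q, B'.Sys q → (∀ i, j ≤ i → i ≤ k → q ≠ e i .L) →
    B'.h (B'.key (toSlots.hi k) 0) (e j .L) < B'.h (B'.key (toSlots.hi k) 0) q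
  /-- before slot `k` the movers of the slots `≥ k` have their initial order -/
  wait : ∀ k j j', k ≤ j → k ≤ j' → ∀ p p', (p = Wire.C ∨ p = Wire.L) →
    (p' = Wire.C ∨ p' = Wire.L) → ¬ B'.Sw (e j p) (e j' p') (B'.key (toSlots.lo k) 0)
  /-- classes of the movers: `l_(k+1) < l_k < c_k < c_(k+1)` -/
  rk_L : ∀ k k', k < k' → B'.r (e k' .L) < B'.r (e k .L)
  rk_C : ∀ k k', k < k' → B'.r (e k .C) < B'.r (e k' .C)
  rk_LC : ∀ k k', B'.r (e k .L) < B'.r (e k' .C)
  /-- at the end of slot `k'` its movers have not yet met the movers of the earlier slots -/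
  stay_C : ∀ k k', k < k' → ¬ B'.Sw (e k' .C) (e k .C) (st k' B.fin)
  stay_L : ∀ k k', k < k' → ¬ B'.Sw (e k' .L) (e k .L) (st k' B.fin)

end Pool.Agent.W_be22fd_h54
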