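import Pool.Agent.W_be22fd_h54.Node
import Pool.Agent.W_be22fd_h78.Calc

/-!
STORM P (MP_be22fd_co), properties (N1), (N3), (P) of row 419: between two outer key times the
spread of the system is at most twice the spread of a child whose key times are all before.
-/

namespace Pool.Agent.W_be22fd_h54

open Pool.Agent.W_be22fd_h27 Pool.Agent.W_be22fd_h16 Pool.Agent.W_be22fd_h78 Polynomial

namespace Node

variable {B B' : Block} {K d : ℕ} (s : Node B B' K)

lemma sys_C (k : Fin K) : B'.Sys (s.e k .C) := s.sys_e k .C trivial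
lemma sys_L (k : Fin K) : B'.Sys (s.e k .L) := s.sys_e k .L trivial

lemma L_ne_C (k k' : Fin K) : s.e k .L ≠ s.e k' .C := by
  intro h
  have := s.rk_LC k k'
  rw [h] at this
  exact lt_irrefl _ this

/-- (N1), top: every other system wire is below `c_k0` between the keys after the slots
`k0`, `k1 = k0 + 1` -/
lemma lt_C (R : BReal B' d) {k0 k1 : Fin K} (h01 : (k0 : ℕ) + 1 = k1) {x : ℝ}
    (hx0 : R.tau (s.hi k0) ≤ x) (hx1 : x ≤ R.tau (s.hi k1)) {q : Wire B'.W B'.ns}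
    (hq : B'.Sys q) (h0 : q ≠ s.e k0 .C) (h1 : q ≠ s.e k1 .C) :
    (R.F q).eval x < (R.F (s.e k0 .C)).eval x := by
  refine R.lt_on hq.core (s.e_core _ _) ?_ ?_ hx0 hx1
  · refine s.top k0 k0 le_rfl q hq ?_
    intro i hi0 hi1
    have : i = k0 := le_antisymm hi1 hi0
    rw [this]
    exact h0
  · have hle : k0 ≤ k1 := by
      rw [Fin.le_def]
      omega
    refine s.top k1 k0 hle q hq ?_
    intro i hi0 hi1
    rw [Fin.le_def] at hi0 hi1
    have : i = k0 ∨ i = k1 := by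
      rcases Nat.lt_or_ge (i : ℕ) k1 with h | h
      · left
        apply Fin.ext
        omega
      · right
        apply Fin.ext
        omega
    rcases this with rfl | rfl
    · exact h0
    · exact h1

/-- (N1), bottom -/
lemma L_lt (R : BReal B' d) {k0 k1 : Fin K} (h01 : (k0 : ℕ) + 1 = k1) {x : ℝ}
    (hx0 : R.tau (s.hi k0) ≤ x) (hx1 : x ≤ R.tau (s.hi k1)) {q : Wire B'.W B'.ns}
    (hq : B'.Sys q) (h0 : q ≠ s.e k0 .L) (h1 : q ≠ s.e k1 .L) :
    (R.F (s.e k0 .L)).eval x < (R.F q).eval x := by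
  refine R.lt_on (s.e_core _ _) hq.core ?_ ?_ hx0 hx1
  · refine s.bot k0 k0 le_rfl q hq ?_
    intro i hi0 hi1
    have : i = k0 := le_antisymm hi1 hi0
    rw [this]
    exact h0
  · have hle : k0 ≤ k1 := by
      rw [Fin.le_def]
      omega
    refine s.bot k1 k0 hle q hq ?_
    intro i hi0 hi1
    rw [Fin.le_def] at hi0 hi1
    have : i = k0 ∨ i = k1 := by
      rcases Nat.lt_or_ge (i : ℕ) k1 with h | h
      · left
        apply Fin.ext
        omega
      · right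
        apply Fin.ext
        omega
    rcases this with rfl | rfl
    · exact h0
    · exact h1

/-- (N1): all values of the system lie between the values of `l_k0`, `l_k1` and `c_k0`, `c_k1` -/
lemma le_max (R : BReal B' d) {k0 k1 : Fin K} (h01 : (k0 : ℕ) + 1 = k1) {x : ℝ}
    (hx0 : R.tau (s.hi k0) ≤ x) (hx1 : x ≤ R.tau (s.hi k1)) {q : Wire B'.W B'.ns}
    (hq : B'.Sys q) :
    (R.F q).eval x ≤ max ((R.F (s.e k0 .C)).eval x) ((R.F (s.e k1 .C)).eval x) := by
  by_cases h0 : q = s.e k0 .C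
  · rw [h0]
    exact le_max_left _ _
  by_cases h1 : q = s.e k1 .C
  · rw [h1]
    exact le_max_right _ _
  exact (s.lt_C R h01 hx0 hx1 hq h0 h1).le.trans (le_max_left _ _)

lemma min_le (R : BReal B' d) {k0 k1 : Fin K} (h01 : (k0 : ℕ) + 1 = k1) {x : ℝ}
    (hx0 : R.tau (s.hi k0) ≤ x) (hx1 : x ≤ R.tau (s.hi k1)) {q : Wire B'.W B'.ns}
    (hq : B'.Sys q) :
    min ((R.F (s.e k0 .L)).eval x) ((R.F (s.e k1 .L)).eval x) ≤ (R.F q).eval x := by
  by_cases h0 : q = s.e k0 .L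
  · rw [h0]
    exact min_le_left _ _
  by_cases h1 : q = s.e k1 .L
  · rw [h1]
    exact min_le_right _ _
  exact (min_le_left _ _).trans (s.L_lt R h01 hx0 hx1 hq h0 h1).le

/-- the spread of the system is at most the difference of the two extreme values -/
lemma abs_sub_le (R : BReal B' d) {k0 k1 : Fin K} (h01 : (k0 : ℕ) + 1 = k1) {x : ℝ}
    (hx0 : R.tau (s.hi k0) ≤ x) (hx1 : x ≤ R.tau (s.hi k1)) {P Q : ℝ[X]}
    (hP : P ∈ sysPoly R) (hQ : Q ∈ sysPoly R) :
    |P.eval x - Q.eval x| ≤ max ((R.F (s.e k0 .C)).eval x) ((R.F (s.e k1 .C)).eval x) -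
      min ((R.F (s.e k0 .L)).eval x) ((R.F (s.e k1 .L)).eval x) := by
  obtain ⟨p, hp, rfl⟩ := hP
  obtain ⟨q, hq, rfl⟩ := hQ
  have h1 := s.le_max R h01 hx0 hx1 hp
  have h2 := s.le_max R h01 hx0 hx1 hq
  have h3 := s.min_le R h01 hx0 hx1 hp
  have h4 := s.min_le R h01 hx0 hx1 hq
  rw [abs_le]
  constructor <;> linarith

/-- key times of child `k1` are before `x` as soon as `c_k1` is above `c_k0` or `l_k1` is below
`l_k0` at `x` -/
lemma tau_lt_of_cross (R : BReal B' d) {k0 k1 : Fin K} (h01 : k0 < k1) {x : ℝ}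
    (h : (R.F (s.e k0 .C)).eval x < (R.F (s.e k1 .C)).eval x ∨
      (R.F (s.e k1 .L)).eval x < (R.F (s.e k0 .L)).eval x) (m : Fin B.ns) :
    (s.restrict R k1).tau m < x := by
  rcases h with h | h
  · have h1 := s.tau_lt_of_not_Sw_fin R k1 m (p := .C) trivial (q := s.e k0 .C) (by
      intro h2
      have := s.rk_C k0 k1 h01
      rw [h2] at this
      exact lt_irrefl _ this) le_rfl (s.stay_C k0 k1 h01)
    refine h1.trans ?_
    rw [R.symm]
    exact (R.b_lt_iff (B'.h_ini _ _ (s.rk_C k0 k1 h01))).2 h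
  · have h1 := s.tau_lt_of_not_Sw_fin R k1 m (p := .L) trivial (q := s.e k0 .L) (by
      intro h2
      have := s.rk_L k0 k1 h01
      rw [h2] at this
      exact lt_irrefl _ this) le_rfl (s.stay_L k0 k1 h01)
    exact h1.trans ((R.b_lt_iff (B'.h_ini _ _ (s.rk_L k0 k1 h01))).2 h)

/-- PROPERTY (P): between the keys after slot `k0` and slot `k1 = k0 + 1` one of the children
`k0`, `k1` has all its key times before `x` (and after the key before slot `k0`), and half of the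
spread of the system at `x`. -/
theorem prop_P (R : BReal B' d) {k0 k1 : Fin K} (h01 : (k0 : ℕ) + 1 = k1) {x : ℝ}
    (hx0 : R.tau (s.hi k0) ≤ x) (hx1 : x ≤ R.tau (s.hi k1)) :
    ∃ j, (j = k0 ∨ j = k1) ∧
      (∀ m, R.tau (s.lo k0) < (s.restrict R j).tau m ∧ (s.restrict R j).tau m < x) ∧
      sysPoly (s.restrict R j) ⊆ sysPoly R ∧
      Dom 2 (sysPoly R) (sysPoly (s.restrict R j)) x := by
  have hlt : k0 < k1 := by
    rw [Fin.lt_def]
    omega
  have hsub : ∀ j, sysPoly (s.restrict R j) ⊆ sysPoly R := by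
    rintro j P ⟨p, hp, rfl⟩
    exact ⟨s.e j p, s.sys_e j p hp, rfl⟩
  -- membership of the movers
  have hmem : ∀ j, R.F (s.e j .C) ∈ sysPoly (s.restrict R j) ∧
      R.F (s.e j .L) ∈ sysPoly (s.restrict R j) := fun j =>
    ⟨⟨.C, trivial, rfl⟩, ⟨.L, trivial, rfl⟩⟩
  -- values
  have hl1c0 : (R.F (s.e k1 .L)).eval x < (R.F (s.e k0 .C)).eval x :=
    s.lt_C R h01 hx0 hx1 (s.sys_L k1) (s.L_ne_C _ _) (s.L_ne_C _ _)
  have hl0c0 : (R.F (s.e k0 .L)).eval x < (R.F (s.e k0 .C)).eval x :=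
    s.lt_C R h01 hx0 hx1 (s.sys_L k0) (s.L_ne_C _ _) (s.L_ne_C _ _)
  have hl0c1 : (R.F (s.e k0 .L)).eval x < (R.F (s.e k1 .C)).eval x :=
    s.L_lt R h01 hx0 hx1 (s.sys_C k1) (s.L_ne_C _ _).symm (s.L_ne_C _ _).symm
  -- how to conclude
  have key : ∀ j, (max ((R.F (s.e k0 .C)).eval x) ((R.F (s.e k1 .C)).eval x) -
      min ((R.F (s.e k0 .L)).eval x) ((R.F (s.e k1 .L)).eval x) ≤
      2 * ((R.F (s.e j .C)).eval x - (R.F (s.e j .L)).eval x)) →
      Dom 2 (sysPoly R) (sysPoly (s.restrict R j)) x := by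
    intro j hj P hP Q hQ
    refine ⟨_, (hmem j).1, _, (hmem j).2, ?_⟩
    refine (s.abs_sub_le R h01 hx0 hx1 hP hQ).trans (hj.trans ?_)
    exact mul_le_mul_of_nonneg_left (le_abs_self _) (by norm_num)
  have hk0 : ∀ m, R.tau (s.lo k0) < (s.restrict R k0).tau m ∧ (s.restrict R k0).tau m < x :=
    fun m => ⟨s.tau_lo_lt_tau R k0 m, (s.tau_lt_tau_hi R k0 m).trans_le hx0⟩
  by_cases hc : (R.F (s.e k0 .C)).eval x < (R.F (s.e k1 .C)).eval x ∨
      (R.F (s.e k1 .L)).eval x < (R.F (s.e k0 .L)).eval x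
  · -- the spread is at most the sum of the two differences
    have hk1 : ∀ m, R.tau (s.lo k0) < (s.restrict R k1).tau m ∧ (s.restrict R k1).tau m < x := by
      intro m
      refine ⟨?_, s.tau_lt_of_cross R hlt hc m⟩
      have h1 := s.tau_lo_lt_tau R k1 m
      have h2 : R.tau (s.lo k0) < R.tau (s.lo k1) := by
        rw [← s.hi_eq_lo h01]
        exact R.tau_lt_tau (s.lo_lt_hi k0)
      exact h2.trans h1
    have hsum : max ((R.F (s.e k0 .C)).eval x) ((R.F (s.e k1 .C)).eval x) -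
        min ((R.F (s.e k0 .L)).eval x) ((R.F (s.e k1 .L)).eval x) ≤
        ((R.F (s.e k1 .C)).eval x - (R.F (s.e k1 .L)).eval x) +
        ((R.F (s.e k0 .C)).eval x - (R.F (s.e k0 .L)).eval x) := by
      rcases le_total ((R.F (s.e k0 .C)).eval x) ((R.F (s.e k1 .C)).eval x) with h1 | h1 <;>
      rcases le_total ((R.F (s.e k0 .L)).eval x) ((R.F (s.e k1 .L)).eval x) with h2 | h2 <;>
      simp only [max_eq_left, max_eq_right, min_eq_left, min_eq_right, h1, h2]
      · linarith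
      · linarith
      · rcases hc with h3 | h3
        · exact absurd h3 (not_lt.2 h1)
        · exact absurd h3 (not_lt.2 h2)
      · linarith
    rcases le_total ((R.F (s.e k0 .C)).eval x - (R.F (s.e k0 .L)).eval x)
      ((R.F (s.e k1 .C)).eval x - (R.F (s.e k1 .L)).eval x) with h1 | h1
    · exact ⟨k1, Or.inr rfl, hk1, hsub _, key k1 (by linarith)⟩
    · exact ⟨k0, Or.inl rfl, hk0, hsub _, key k0 (by linarith)⟩
  · push Not at hc
    refine ⟨k0, Or.inl rfl, hk0, hsub _, key k0 ?_⟩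
    rw [max_eq_left hc.1, min_eq_left hc.2]
    linarith

/-- PROPERTY (P), lowest level: between the keys after slot `k0` and slot `k1 = k0 + 1` the
extreme wires of the system are a pair of movers whose crossing is after the key before slot
`k0` and not after `x`. -/
theorem prop_P_pair (R : BReal B' d) {k0 k1 : Fin K} (h01 : (k0 : ℕ) + 1 = k1) {x : ℝ}
    (hx0 : R.tau (s.hi k0) ≤ x) (hx1 : x ≤ R.tau (s.hi k1)) :
    ∃ P ∈ sysPoly R, ∃ Q ∈ sysPoly R, P ≠ Q ∧ ∃ z, P.eval z = Q.eval z ∧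
      R.tau (s.lo k0) < z ∧ z ≤ x ∧ Dom 1 (sysPoly R) {P, Q} x := by
  have hle : k0 ≤ k1 := by
    rw [Fin.le_def]
    omega
  obtain ⟨a, ha, hamax⟩ : ∃ a, k0 ≤ a ∧ (R.F (s.e a .C)).eval x =
      max ((R.F (s.e k0 .C)).eval x) ((R.F (s.e k1 .C)).eval x) := by
    rcases max_choice ((R.F (s.e k0 .C)).eval x) ((R.F (s.e k1 .C)).eval x) with h | h
    · exact ⟨k0, le_rfl, h.symm⟩
    · exact ⟨k1, hle, h.symm⟩
  obtain ⟨b, hb, hbmin⟩ : ∃ b, k0 ≤ b ∧ (R.F (s.e b .L)).eval x =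
      min ((R.F (s.e k0 .L)).eval x) ((R.F (s.e k1 .L)).eval x) := by
    rcases min_choice ((R.F (s.e k0 .L)).eval x) ((R.F (s.e k1 .L)).eval x) with h | h
    · exact ⟨k0, le_rfl, h.symm⟩
    · exact ⟨k1, hle, h.symm⟩
  have hne : s.e a .C ≠ s.e b .L := (s.L_ne_C b a).symm
  refine ⟨R.F (s.e a .C), ⟨_, s.sys_C a, rfl⟩, R.F (s.e b .L), ⟨_, s.sys_L b, rfl⟩,
    fun h => hne (R.F_injective h), R.b (s.e a .C) (s.e b .L), R.eq _ _, ?_, ?_, ?_⟩
  · exact R.tau_lt_b (s.e_core _ _) (s.e_core _ _) hne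
      (s.wait k0 a b ha hb .C .L (Or.inl rfl) (Or.inr rfl))
  · by_contra hcon
    push Not at hcon
    have h1 := R.left (s.e b .L) (s.e a .C) (B'.h_ini _ _ (s.rk_LC b a)) x
      (by rw [R.symm]; exact hcon)
    have h2 := (s.min_le R h01 hx0 hx1 (s.sys_C a))
    rw [← hbmin] at h2
    exact absurd h1 (not_lt.2 h2)
  · intro P hP Q hQ
    refine ⟨R.F (s.e a .C), by simp, R.F (s.e b .L), by simp, ?_⟩
    refine (s.abs_sub_le R h01 hx0 hx1 hP hQ).trans ?_
    rw [← hamax, ← hbmin, one_mul]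
    exact le_abs_self _

end Node

end Pool.Agent.W_be22fd_h54
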