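import Pool.Agent.W_be22fd_h16.BReal

/-!
STORM P (MP_be22fd_co): a block `B'` which contains copies of a block `B` in successive
intervals of states (slots); restriction of a realisation of `B'` to a slot; position of the
key times of the children.
-/

namespace Pool.Agent.W_be22fd_h54

open Pool.Agent.W_be22fd_h27 Pool.Agent.W_be22fd_h16 Polynomial

/-- `B'` contains, in `K` successive intervals of states, copies of the block `B`.
Slot `k` lies between the outer sync pairs `k` and `k + 1` of `B'`. -/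
structure Slots (B B' : Block) (K : ℕ) where
  hns : B'.ns = K + 1
  /-- the wires of the copy number `k` -/
  e : Fin K → Wire B.W B.ns → Wire B'.W B'.ns
  e_inj : ∀ k, Function.Injective (e k)
  e_core : ∀ k p, (e k p).IsCore
  /-- the states of the copy number `k` -/
  st : Fin K → B.τ → B'.τ
  st_mono : ∀ k t t', t ≤ t' → st k t ≤ st k t'
  rk_lt_iff : ∀ k p q, rk B'.A B'.slope (e k p) < rk B'.A B'.slope (e k q) ↔
    rk B.A B.slope p < rk B.A B.slope q
  h_iff : ∀ k t p q, B'.h (st k t) (e k p) < B'.h (st k t) (e k q) ↔ B.h t p < B.h t q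
  key_le : ∀ k : Fin K, B'.key (Fin.cast hns.symm k.castSucc) 3 ≤ st k B.ini
  le_key : ∀ k : Fin K, st k B.fin ≤ B'.key (Fin.cast hns.symm k.succ) 0

namespace Slots

variable {B B' : Block} {K d : ℕ} (s : Slots B B' K)

/-- index of the outer sync pair before slot `k` -/
def lo (k : Fin K) : Fin B'.ns := Fin.cast s.hns.symm k.castSucc

/-- index of the outer sync pair after slot `k` -/
def hi (k : Fin K) : Fin B'.ns := Fin.cast s.hns.symm k.succ

lemma lo_lt_hi (k : Fin K) : s.lo k < s.hi k := by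
  show (k.castSucc : ℕ) < (k.succ : ℕ)
  simp

lemma hi_eq_lo {k k' : Fin K} (h : (k : ℕ) + 1 = (k' : ℕ)) : s.hi k = s.lo k' := by
  apply Fin.ext
  show ((k.succ : Fin (K + 1)) : ℕ) = ((k'.castSucc : Fin (K + 1)) : ℕ)
  simpa using h

lemma hi_le_lo {k k' : Fin K} (h : k < k') : s.hi k ≤ s.lo k' := by
  show ((k.succ : Fin (K + 1)) : ℕ) ≤ ((k'.castSucc : Fin (K + 1)) : ℕ)
  simpa using h

lemma Sw_iff (k : Fin K) (t : B.τ) (p q : Wire B.W B.ns) :
    B'.Sw (s.e k p) (s.e k q) (s.st k t) ↔ B.Sw p q t := by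
  unfold Block.Sw
  rw [s.rk_lt_iff, s.rk_lt_iff, s.h_iff, s.h_iff]

lemma not_Sw_ini (k : Fin K) {p q : Wire B.W B.ns} {t : B'.τ} (ht : t ≤ s.st k B.ini) :
    ¬ B'.Sw (s.e k p) (s.e k q) t := by
  intro h
  have h1 := (s.Sw_iff k B.ini p q).1 (B'.Sw_mono ht h)
  rcases h1 with ⟨h2, h3⟩ | ⟨h2, h3⟩
  · exact absurd h3 (B.h_ini _ _ h2).asymm
  · exact absurd h3 (B.h_ini _ _ h2).asymm

/-- the copies have the initial order of `B` in the initial state of `B'` -/
lemma ini_iff (k : Fin K) (p q : Wire B.W B.ns) :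
    B'.h B'.ini (s.e k p) < B'.h B'.ini (s.e k q) ↔ B.h B.ini p < B.h B.ini q := by
  by_cases hpq : p = q
  · subst hpq
    simp
  have h1 := B'.lt_iff_of_not_Sw (fun h => hpq (s.e_inj k h))
    (s.not_Sw_ini k (p := p) (q := q) le_rfl)
  rw [← h1, s.h_iff]

/-- restriction of a realisation of `B'` to the copy number `k` of `B` -/
def restrict (R : BReal B' d) (k : Fin K) : BReal B d where
  F p := R.F (s.e k p)
  b p q := R.b (s.e k p) (s.e k q)
  deg p := R.deg _
  symm p q := R.symm _ _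
  left p q h := R.left _ _ ((s.ini_iff k q p).2 h)
  eq p q := R.eq _ _
  right p q h := R.right _ _ ((s.ini_iff k q p).2 h)
  order p q r t hpq hpr h1 h2 := R.order _ _ _ (s.st k t) (fun h => hpq (s.e_inj k h))
    (fun h => hpr (s.e_inj k h)) ((s.Sw_iff k t p q).2 h1) (fun h => h2 ((s.Sw_iff k t p r).1 h))

@[simp] lemma restrict_F (R : BReal B' d) (k : Fin K) (p : Wire B.W B.ns) :
    (s.restrict R k).F p = R.F (s.e k p) := rfl

@[simp] lemma restrict_b (R : BReal B' d) (k : Fin K) (p q : Wire B.W B.ns) :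
    (s.restrict R k).b p q = R.b (s.e k p) (s.e k q) := rfl

lemma Sw_fin (k : Fin K) {p q : Wire B.W B.ns} (hpq : B.r p ≠ B.r q)
    {t : B'.τ} (ht : s.st k B.fin ≤ t) : B'.Sw (s.e k p) (s.e k q) t := by
  refine B'.Sw_mono ht ((s.Sw_iff k B.fin p q).2 ?_)
  rcases lt_or_gt_of_ne hpq with h | h
  · exact Or.inl ⟨h, B.h_fin _ _ h⟩
  · exact Or.inr ⟨h, B.h_fin _ _ h⟩

lemma key0_le (k : Fin K) : B'.key (s.lo k) 0 ≤ s.st k B.ini :=
  ((B'.key_lt (s.lo k)).1.trans ((B'.key_lt (s.lo k)).2.1.trans (B'.key_lt (s.lo k)).2.2)).trans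
    (s.key_le k)

lemma st_le_key0 (k : Fin K) (t : B.τ) : s.st k t ≤ B'.key (s.hi k) 0 :=
  (s.st_mono k _ _ (B.le_fin t)).trans (s.le_key k)

/-- everything in slot `k` happens after the outer key time before it -/
lemma tau_lo_lt (R : BReal B' d) (k : Fin K) {p q : Wire B.W B.ns} (hpq : p ≠ q) :
    R.tau (s.lo k) < R.b (s.e k p) (s.e k q) :=
  R.tau_lt_b (s.e_core k p) (s.e_core k q) (fun h => hpq (s.e_inj k h))
    (s.not_Sw_ini k (s.key0_le k))

/-- everything in slot `k` happens before the outer key time after it -/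
lemma lt_tau_hi (R : BReal B' d) (k : Fin K) {p q : Wire B.W B.ns} (hpq : B.r p ≠ B.r q) :
    R.b (s.e k p) (s.e k q) < R.tau (s.hi k) :=
  R.b_lt_tau (s.e_core k p) (fun h => hpq (by rw [s.e_inj k h])) (s.Sw_fin k hpq (s.le_key k))

/-- (N2), left part: key times of the child `k` come after the outer key time before it -/
lemma tau_lo_lt_tau (R : BReal B' d) (k : Fin K) (m : Fin B.ns) :
    R.tau (s.lo k) < (s.restrict R k).tau m :=
  s.tau_lo_lt R k (by simp)

/-- (N2): key times of the child `k` come before the outer key time after it -/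
lemma tau_lt_tau_hi (R : BReal B' d) (k : Fin K) (m : Fin B.ns) :
    (s.restrict R k).tau m < R.tau (s.hi k) :=
  s.lt_tau_hi R k (BReal.r_S_lt_R (B := B) m m).ne'

/-- (N2): The key time `m` of the child `k` is before the crossing of one of its core wires `p`
(for instance one of its movers) with a wire `q` of `B'` which has not yet met `p` in the
state `key m 3` of the copy. -/
lemma tau_lt_of_not_Sw (R : BReal B' d) (k : Fin K) (m : Fin B.ns) {p : Wire B.W B.ns}
    (hp : p.IsCore) {q : Wire B'.W B'.ns} (hq : s.e k p ≠ q)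
    (h : ¬ B'.Sw (s.e k p) q (s.st k (B.key m 3))) :
    (s.restrict R k).tau m < R.b (s.e k p) q := by
  have hS := (BReal.core_ne hp m).2
  refine ((s.restrict R k).tau_lt_b_S hp m).trans ?_
  exact R.order (s.e k p) (s.e k (.S m)) q _ (fun h => hS (s.e_inj k h)) hq
    ((s.Sw_iff k _ _ _).2 (BReal.Sw_S hp m).2) h

/-- the same with a state `t'` in which `p`, `q` have not met, not before the end of the slot -/
lemma tau_lt_of_not_Sw_fin (R : BReal B' d) (k : Fin K) (m : Fin B.ns) {p : Wire B.W B.ns}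
    (hp : p.IsCore) {q : Wire B'.W B'.ns} (hq : s.e k p ≠ q) {t' : B'.τ}
    (ht' : s.st k B.fin ≤ t') (h : ¬ B'.Sw (s.e k p) q t') :
    (s.restrict R k).tau m < R.b (s.e k p) q :=
  s.tau_lt_of_not_Sw R k m hp hq
    (fun h1 => h (B'.Sw_mono ((s.st_mono k _ _ (B.le_fin _)).trans ht') h1))

/-- any crossing of the child `k` which has happened in the state `t` of the copy on the wire `p`
is before the crossing of `p` with a wire `q` of `B'` not yet met by `p` -/
lemma b_lt_of_not_Sw (R : BReal B' d) (k : Fin K) {p p' : Wire B.W B.ns} (hpp : p ≠ p')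
    {q : Wire B'.W B'.ns} (hq : s.e k p ≠ q) {t : B.τ} (h1 : B.Sw p p' t)
    (h2 : ¬ B'.Sw (s.e k p) q (s.st k t)) :
    R.b (s.e k p) (s.e k p') < R.b (s.e k p) q :=
  R.order _ _ _ (s.st k t) (fun h => hpp (s.e_inj k h)) hq ((s.Sw_iff k t p p').2 h1) h2

end Slots

end Pool.Agent.W_be22fd_h54
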